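import Pool.Agent.Lib_helper15.C10.Defs

/-!
# Module S1: the intertwining map from an orbit that does not tend to zero
-/

set_option autoImplicit false

universe u

namespace Pool.Agent.C10

open Filter Set
open scoped Topology

namespace S1

/-- `z^k` for integers `k` -/
noncomputable def e (k : ℤ) : C(Circle, ℂ) := ⟨fun z => ((z ^ k : Circle) : ℂ), 
  (by fun_prop : Continuous (fun z : Circle => (z : ℂ))).comp (continuous_zpow k)⟩

lemma e_apply (k : ℤ) (z : Circle) : e k z = (z : ℂ) ^ k := by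
  simp [e]

lemma e_zero : e 0 = 1 := by
  ext z; simp [e]

lemma e_add (k l : ℤ) : e (k + l) = e k * e l := by
  ext z; simp [e, zpow_add]

lemma zc_mul_e (k : ℤ) : zc * e k = e (k + 1) := by
  ext z
  have h1 : (zc * e k) z = (z : ℂ) * ((z ^ k : Circle) : ℂ) := rfl
  have h2 : e (k + 1) z = ((z ^ (k + 1) : Circle) : ℂ) := rfl
  rw [h1, h2, zpow_add, zpow_one, Circle.coe_mul, mul_comm]

lemma star_e (k : ℤ) : star (e k) = e (-k) := by
  ext z
  simp only [ContinuousMap.star_apply, e, ContinuousMap.coe_mk, zpow_neg, Circle.coe_inv_eq_conj]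
  rfl

/-- the star subalgebra of Laurent polynomials -/
noncomputable def eSub : StarSubalgebra ℂ C(Circle, ℂ) where
  toSubalgebra := Algebra.adjoin ℂ (range e)
  star_mem' := by
    change Algebra.adjoin ℂ (range e) ≤ star (Algebra.adjoin ℂ (range e))
    refine Algebra.adjoin_le ?_
    rintro - ⟨n, rfl⟩
    refine Algebra.subset_adjoin ⟨-n, ?_⟩
    exact (star_e n).symm

lemma eSub_coe : Subalgebra.toSubmodule eSub.toSubalgebra = Submodule.span ℂ (range e) := by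
  apply Algebra.adjoin_eq_span_of_subset
  refine Subset.trans ?_ Submodule.subset_span
  intro x hx
  refine Submonoid.closure_induction (fun _ => id) ⟨0, ?_⟩ ?_ hx
  · exact e_zero
  · rintro _ _ _ _ ⟨m, rfl⟩ ⟨n, rfl⟩
    exact ⟨m + n, e_add m n⟩

lemma eSub_sep : eSub.SeparatesPoints := by
  intro x y hxy
  refine ⟨_, ⟨e 1, Algebra.subset_adjoin ⟨1, rfl⟩, rfl⟩, ?_⟩
  intro h
  apply hxy
  simp only [e, ContinuousMap.coe_mk, zpow_one] at h
  exact Circle.ext h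

lemma eSub_top : eSub.topologicalClosure = ⊤ :=
  ContinuousMap.starSubalgebra_topologicalClosure_eq_top_of_separatesPoints eSub eSub_sep

lemma span_e_top : (Submodule.span ℂ (range e)).topologicalClosure = ⊤ := by
  rw [← eSub_coe]
  exact congr_arg (Subalgebra.toSubmodule <| StarSubalgebra.toSubalgebra ·) eSub_top

/-- evaluation of Laurent polynomials -/
noncomputable def ev : (ℤ →₀ ℂ) →ₗ[ℂ] C(Circle, ℂ) := Finsupp.linearCombination ℂ e

lemma ev_single (k : ℤ) (c : ℂ) : ev (Finsupp.single k c) = c • e k := by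
  simp [ev]

lemma ev_dense : DenseRange ev := by
  have h : (LinearMap.range ev : Submodule ℂ C(Circle, ℂ)) = Submodule.span ℂ (range e) := by
    rw [ev, Finsupp.range_linearCombination]
  have h2 : closure (Set.range ev) = Set.univ := by
    have h3 := span_e_top
    rw [← h] at h3
    have h4 := congrArg (fun S : Submodule ℂ C(Circle, ℂ) => (S : Set C(Circle, ℂ))) h3
    rw [Submodule.topologicalClosure_coe, LinearMap.coe_range] at h4
    exact h4
  exact dense_iff_closure_eq.2 h2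

variable {E : Type u} [NormedAddCommGroup E] [NormedSpace ℂ E]

/-- the Laurent polynomial shifted by `n`, evaluated at `T` -/
noncomputable def Sn (T : E →L[ℂ] E) (n : ℕ) : (ℤ →₀ ℂ) →ₗ[ℂ] (E →L[ℂ] E) :=
  Finsupp.linearCombination ℂ (fun k : ℤ => T ^ ((n : ℤ) + k).toNat)

lemma Sn_single (T : E →L[ℂ] E) (n : ℕ) (k : ℤ) (c : ℂ) :
    Sn T n (Finsupp.single k c) = c • T ^ ((n : ℤ) + k).toNat := by
  simp [Sn]

/-- eventually `n + k ≥ 0` on the support -/
lemma ev_nonneg (a : ℤ →₀ ℂ) : ∀ᶠ n : ℕ in atTop, ∀ k ∈ a.support, 0 ≤ (n : ℤ) + k := by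
  rw [Filter.eventually_all_finset]
  intro k _
  filter_upwards [eventually_ge_atTop (-k).toNat] with n hn
  have := Int.self_le_toNat (-k)
  have h2 : ((-k).toNat : ℤ) ≤ n := by exact_mod_cast hn
  linarith

lemma Sn_bound (T : E →L[ℂ] E) (C : ℝ) (hT : PolyBddBy C T) (a : ℤ →₀ ℂ) :
    ∀ᶠ n : ℕ in atTop, ‖Sn T n a‖ ≤ C * ‖ev a‖ := by
  filter_upwards [ev_nonneg a] with n hn
  set P : Polynomial ℂ := ∑ k ∈ a.support, a k • Polynomial.X ^ ((n : ℤ) + k).toNat with hP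
  have h1 : Sn T n a = Polynomial.aeval T P := by
    rw [hP, map_sum, Sn, Finsupp.linearCombination_apply, Finsupp.sum]
    refine Finset.sum_congr rfl fun k _ => ?_
    rw [map_smul, map_pow, Polynomial.aeval_X]
  rw [h1]
  apply hT P ‖ev a‖
  have hsphere : ∀ w : ℂ, ‖w‖ = 1 → ‖P.eval w‖ ≤ ‖ev a‖ := by
    intro w hw
    set z : Circle := ⟨w, mem_sphere_zero_iff_norm.2 hw⟩ with hz
    have hzw : (z : ℂ) = w := rfl
    have h0 : w ≠ 0 := by
      intro h
      rw [h, norm_zero] at hw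
      exact zero_ne_one hw
    have h2 : P.eval w = w ^ n * ev a z := by
      rw [hP, Polynomial.eval_finsetSum, ev, Finsupp.linearCombination_apply, Finsupp.sum,
        ContinuousMap.sum_apply, Finset.mul_sum]
      refine Finset.sum_congr rfl fun k hk => ?_
      rw [Polynomial.eval_smul, Polynomial.eval_pow, Polynomial.eval_X, ContinuousMap.smul_apply,
        e_apply, hzw, smul_eq_mul, smul_eq_mul]
      have h3 : w ^ ((n : ℤ) + k).toNat = w ^ n * w ^ k := by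
        rw [← zpow_natCast, Int.toNat_of_nonneg (hn k hk), zpow_add₀ h0, zpow_natCast]
      rw [h3]
      ring
    rw [h2, norm_mul, norm_pow, hw, one_pow, one_mul]
    exact ContinuousMap.norm_coe_le_norm _ _
  intro z hz
  have hcl : z ∈ closure (Metric.ball (0 : ℂ) 1) := by
    rw [closure_ball (0 : ℂ) one_ne_zero]
    simpa using hz
  refine Complex.norm_le_of_forall_mem_frontier_norm_le Metric.isBounded_ball
    (P.differentiable.diffContOnCl) ?_ hcl
  intro w hw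
  rw [frontier_ball (0 : ℂ) one_ne_zero] at hw
  exact hsphere w (by simpa using hw)

/-- the ultrafilter along which limits are taken -/
lemma ex_lim (T : E →L[ℂ] E) (C : ℝ) (_ : 0 ≤ C) (hT : PolyBddBy C T)
    (ψ : ℕ → (E →L[ℂ] ℂ)) (hψ : ∀ n, ‖ψ n‖ ≤ 1) (a : ℤ →₀ ℂ) (x : E) :
    ∃ y : ℂ, Tendsto (fun n => ψ n (Sn T n a x)) (hyperfilter ℕ : Filter ℕ) (𝓝 y) ∧
      ‖y‖ ≤ C * ‖ev a‖ * ‖x‖ := by
  have hev : ∀ᶠ n in (hyperfilter ℕ : Filter ℕ),
      ψ n (Sn T n a x) ∈ Metric.closedBall (0 : ℂ) (C * ‖ev a‖ * ‖x‖) := by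
    refine Nat.hyperfilter_le_atTop ?_
    filter_upwards [Sn_bound T C hT a] with n hn
    rw [mem_closedBall_zero_iff]
    calc ‖ψ n (Sn T n a x)‖ ≤ ‖ψ n‖ * ‖Sn T n a x‖ := (ψ n).le_opNorm _
      _ ≤ 1 * (‖Sn T n a‖ * ‖x‖) :=
          mul_le_mul (hψ n) ((Sn T n a).le_opNorm x) (norm_nonneg _) zero_le_one
      _ ≤ C * ‖ev a‖ * ‖x‖ := by
          rw [one_mul]
          exact mul_le_mul_of_nonneg_right hn (norm_nonneg _)
  have hcomp := isCompact_closedBall (0 : ℂ) (C * ‖ev a‖ * ‖x‖)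
  obtain ⟨y, hy, hle⟩ := hcomp.ultrafilter_le_nhds
    ((hyperfilter ℕ).map (fun n => ψ n (Sn T n a x))) (by
      rw [Ultrafilter.coe_map, le_principal_iff]
      exact hev)
  exact ⟨y, hle, by simpa using hy⟩

/-- the limit functional -/
noncomputable def L (T : E →L[ℂ] E) (C : ℝ) (hC : 0 ≤ C) (hT : PolyBddBy C T)
    (ψ : ℕ → (E →L[ℂ] ℂ)) (hψ : ∀ n, ‖ψ n‖ ≤ 1) (a : ℤ →₀ ℂ) (x : E) : ℂ :=
  (ex_lim T C hC hT ψ hψ a x).choose

section

variable (T : E →L[ℂ] E) (C : ℝ) (hC : 0 ≤ C) (hT : PolyBddBy C T)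
    (ψ : ℕ → (E →L[ℂ] ℂ)) (hψ : ∀ n, ‖ψ n‖ ≤ 1)

lemma L_tendsto (a : ℤ →₀ ℂ) (x : E) :
    Tendsto (fun n => ψ n (Sn T n a x)) (hyperfilter ℕ : Filter ℕ)
      (𝓝 (L T C hC hT ψ hψ a x)) :=
  (ex_lim T C hC hT ψ hψ a x).choose_spec.1

lemma L_norm (a : ℤ →₀ ℂ) (x : E) : ‖L T C hC hT ψ hψ a x‖ ≤ C * ‖ev a‖ * ‖x‖ :=
  (ex_lim T C hC hT ψ hψ a x).choose_spec.2

lemma L_eq (a : ℤ →₀ ℂ) (x : E) (y : ℂ)
    (h : Tendsto (fun n => ψ n (Sn T n a x)) (hyperfilter ℕ : Filter ℕ) (𝓝 y)) :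
    L T C hC hT ψ hψ a x = y :=
  tendsto_nhds_unique (L_tendsto T C hC hT ψ hψ a x) h

/-- the bilinear map -/
noncomputable def B : (ℤ →₀ ℂ) →ₗ[ℂ] E →ₗ[ℂ] ℂ :=
  LinearMap.mk₂ ℂ (L T C hC hT ψ hψ)
    (fun a b x => L_eq T C hC hT ψ hψ _ _ _ (by
      have := (L_tendsto T C hC hT ψ hψ a x).add (L_tendsto T C hC hT ψ hψ b x)
      refine this.congr fun n => ?_
      rw [map_add, add_apply, map_add]))
    (fun c a x => L_eq T C hC hT ψ hψ _ _ _ (by
      have := (L_tendsto T C hC hT ψ hψ a x).const_smul c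
      refine this.congr fun n => ?_
      rw [map_smul, smul_apply, map_smul]))
    (fun a x y => L_eq T C hC hT ψ hψ _ _ _ (by
      have := (L_tendsto T C hC hT ψ hψ a x).add (L_tendsto T C hC hT ψ hψ a y)
      refine this.congr fun n => ?_
      rw [map_add, map_add]))
    (fun c a x => L_eq T C hC hT ψ hψ _ _ _ (by
      have := (L_tendsto T C hC hT ψ hψ a x).const_smul c
      refine this.congr fun n => ?_
      rw [map_smul, map_smul]))

lemma B_apply (a : ℤ →₀ ℂ) (x : E) : B T C hC hT ψ hψ a x = L T C hC hT ψ hψ a x := rfl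

lemma B_norm (a : ℤ →₀ ℂ) (x : E) : ‖B T C hC hT ψ hψ a x‖ ≤ C * ‖ev a‖ * ‖x‖ := by
  rw [B_apply]
  exact L_norm T C hC hT ψ hψ a x

/-- the map with values in the dual space -/
noncomputable def Φ0 : (ℤ →₀ ℂ) →ₗ[ℂ] (E →L[ℂ] ℂ) where
  toFun a := (B T C hC hT ψ hψ a).mkContinuous (C * ‖ev a‖) (B_norm T C hC hT ψ hψ a)
  map_add' a b := by
    ext x
    rw [LinearMap.mkContinuous_apply, map_add]
    rfl
  map_smul' c a := by
    ext x
    rw [LinearMap.mkContinuous_apply, map_smul]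
    rfl

lemma Φ0_apply (a : ℤ →₀ ℂ) (x : E) : Φ0 T C hC hT ψ hψ a x = L T C hC hT ψ hψ a x := rfl

lemma Φ0_norm (a : ℤ →₀ ℂ) : ‖Φ0 T C hC hT ψ hψ a‖ ≤ C * ‖ev a‖ :=
  LinearMap.mkContinuous_norm_le _ (mul_nonneg hC (norm_nonneg _))
    (B_norm T C hC hT ψ hψ a)

/-- the extension to all continuous functions -/
noncomputable def Φ : C(Circle, ℂ) →L[ℂ] (E →L[ℂ] ℂ) := (Φ0 T C hC hT ψ hψ).extendOfNorm ev

lemma Φ_ev (a : ℤ →₀ ℂ) : Φ T C hC hT ψ hψ (ev a) = Φ0 T C hC hT ψ hψ a :=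
  LinearMap.extendOfNorm_eq ev_dense ⟨C, Φ0_norm T C hC hT ψ hψ⟩ a

lemma Φ_e (k : ℤ) : Φ T C hC hT ψ hψ (e k) = Φ0 T C hC hT ψ hψ (Finsupp.single k 1) := by
  rw [← Φ_ev, ev_single, one_smul]

lemma Φ_inter : Inter T (Φ T C hC hT ψ hψ) := by
  have key : ∀ (k : ℤ) (x : E),
      Φ T C hC hT ψ hψ (zc * e k) x = Φ T C hC hT ψ hψ (e k) (T x) := by
    intro k x
    rw [zc_mul_e, Φ_e, Φ_e, Φ0_apply, Φ0_apply]
    apply L_eq
    have h1 := L_tendsto T C hC hT ψ hψ (Finsupp.single k 1) (T x)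
    refine h1.congr' ?_
    refine Nat.hyperfilter_le_atTop ?_
    filter_upwards [eventually_ge_atTop (-k).toNat] with n hn
    have h2 : 0 ≤ (n : ℤ) + k := by
      have := Int.self_le_toNat (-k)
      have h2 : ((-k).toNat : ℤ) ≤ n := by exact_mod_cast hn
      linarith
    have h3 : ((n : ℤ) + (k + 1)).toNat = ((n : ℤ) + k).toNat + 1 := by omega
    rw [Sn_single, Sn_single, h3, pow_succ]
    rfl
  intro f x
  have hcl : IsClosed {f : C(Circle, ℂ) |
      Φ T C hC hT ψ hψ (zc * f) x = Φ T C hC hT ψ hψ f (T x)} := by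
    apply isClosed_eq
    · exact ((ContinuousLinearMap.apply ℂ ℂ x).continuous.comp
        (Φ T C hC hT ψ hψ).continuous).comp (continuous_const.mul continuous_id)
    · exact (ContinuousLinearMap.apply ℂ ℂ (T x)).continuous.comp (Φ T C hC hT ψ hψ).continuous
  have hmem : ∀ a : ℤ →₀ ℂ, ev a ∈ {f : C(Circle, ℂ) |
      Φ T C hC hT ψ hψ (zc * f) x = Φ T C hC hT ψ hψ f (T x)} := by
    intro a
    induction a using Finsupp.induction_linear with
    | zero => simp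
    | add a b ha hb =>
      simp only [Set.mem_ofPred_eq] at ha hb ⊢
      rw [map_add, mul_add, map_add, map_add, add_apply,
        add_apply, ha, hb]
    | single k c =>
      simp only [Set.mem_ofPred_eq]
      rw [ev_single, mul_smul_comm, map_smul, map_smul, smul_apply,
        smul_apply, key]
  exact ev_dense.induction_on (p := fun f : C(Circle, ℂ) =>
      Φ T C hC hT ψ hψ (zc * f) x = Φ T C hC hT ψ hψ f (T x)) f hcl hmem

end

/-- power boundedness -/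
lemma pow_bdd (T : E →L[ℂ] E) (C : ℝ) (hT : PolyBddBy C T) (n : ℕ) : ‖T ^ n‖ ≤ C := by
  have h := hT (Polynomial.X ^ n) 1 (fun z hz => by
    rw [Polynomial.eval_pow, Polynomial.eval_X, norm_pow]
    exact pow_le_one₀ (norm_nonneg _) hz)
  rwa [map_pow, Polynomial.aeval_X, mul_one] at h

/-- a non-vanishing orbit stays away from zero -/
lemma exists_orbit (T : E →L[ℂ] E) (C : ℝ) (hT : PolyBddBy C T) (hs : ¬ Stable T) :
    ∃ (x : E) (c : ℝ), 0 < c ∧ ∀ n : ℕ, c ≤ ‖(T ^ n) x‖ := by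
  by_contra hcon
  push Not at hcon
  apply hs
  intro x
  have hC : 0 ≤ C := le_trans (norm_nonneg _) (pow_bdd T C hT 0)
  rw [Metric.tendsto_atTop]
  intro ε hε
  obtain ⟨n, hn⟩ := hcon x (ε / (C + 1)) (by positivity)
  refine ⟨n, fun m hm => ?_⟩
  rw [dist_zero_right]
  obtain ⟨j, rfl⟩ := Nat.exists_eq_add_of_le hm
  have h1 : (T ^ (n + j)) x = (T ^ j) ((T ^ n) x) := by
    rw [add_comm, pow_add]; rfl
  rw [h1]
  calc ‖(T ^ j) ((T ^ n) x)‖ ≤ ‖T ^ j‖ * ‖(T ^ n) x‖ := (T ^ j).le_opNorm _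
    _ ≤ (C + 1) * ‖(T ^ n) x‖ :=
        mul_le_mul_of_nonneg_right (by linarith [pow_bdd T C hT j]) (norm_nonneg _)
    _ < (C + 1) * (ε / (C + 1)) := mul_lt_mul_of_pos_left hn (by linarith)
    _ = ε := by field_simp

end S1

/-- Module (S1). -/
theorem modS1 : ModS1 := by
  intro E _ _ T C hT hs
  have hC : 0 ≤ C := le_trans (norm_nonneg _) (S1.pow_bdd T C hT 0)
  obtain ⟨x, c, hc, hx⟩ := S1.exists_orbit T C hT hs
  choose ψ hψ hψx using fun n : ℕ => exists_dual_vector'' ℂ ((T ^ n) x)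
  refine ⟨S1.Φ T C hC hT ψ hψ, S1.Φ_inter T C hC hT ψ hψ, ?_⟩
  intro h0
  have h1 : S1.L T C hC hT ψ hψ (Finsupp.single 0 1) x = 0 := by
    rw [← S1.Φ0_apply, ← S1.Φ_e, S1.e_zero, h0]
    rfl
  have h2 := S1.L_tendsto T C hC hT ψ hψ (Finsupp.single 0 1) x
  rw [h1] at h2
  have h3 : ∀ n : ℕ, c ≤ ‖ψ n (S1.Sn T n (Finsupp.single 0 1) x)‖ := by
    intro n
    have h4 : S1.Sn T n (Finsupp.single 0 1) x = (T ^ n) x := by
      rw [S1.Sn_single, one_smul, add_zero, Int.toNat_natCast]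
    rw [h4, hψx n]
    simpa using hx n
  have h5 := h2.norm
  rw [norm_zero] at h5
  have h6 := ge_of_tendsto' h5 h3
  linarith

end Pool.Agent.C10
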