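import Pool.Agent.Lib_helper15.C10.Defs
import Pool.Agent.Lib_helper15.C10.Defs2
import Pool.Agent.Lib_helper69.C10.S1

/-!
# Module S2: operators that are neither stable nor costable
-/

set_option autoImplicit false

universe u

namespace Pool.Agent.C10

open Filter Set
open scoped Topology

namespace S2

variable {E : Type u} [NormedAddCommGroup E] [NormedSpace ℂ E]

/-- a closed subspace from an invariant one killed by a functional -/
lemma hyper_of (T : E →L[ℂ] E) (S : Submodule ℂ E) (hS : ∃ x ∈ S, x ≠ 0)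
    (φ : E →L[ℂ] ℂ) (hφ : φ ≠ 0) (hk : ∀ x ∈ S, φ x = 0)
    (hinv : ∀ A : E →L[ℂ] E, A * T = T * A → ∀ x ∈ S, A x ∈ S) : HasHyper T := by
  refine ⟨S.topologicalClosure, S.isClosed_topologicalClosure, ?_, ?_, ?_⟩
  · obtain ⟨x, hx, hx0⟩ := hS
    intro h
    have : x ∈ S.topologicalClosure := S.le_topologicalClosure hx
    rw [h, Submodule.mem_bot] at this
    exact hx0 this
  · intro h
    apply hφ
    ext x
    have hx : x ∈ S.topologicalClosure := by rw [h]; trivial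
    have hcl : IsClosed {y : E | φ y = 0} := isClosed_eq φ.continuous continuous_const
    have hsub : (S.topologicalClosure : Set E) ⊆ {y : E | φ y = 0} := by
      rw [Submodule.topologicalClosure_coe]
      exact closure_minimal (fun y hy => hk y hy) hcl
    exact hsub hx
  · intro A hA x hx
    have hx' : x ∈ closure (S : Set E) := by
      rw [← Submodule.topologicalClosure_coe]; exact hx
    have h2 : A x ∈ closure (S : Set E) :=
      map_mem_closure A.continuous hx' (fun y hy => hinv A hA y hy)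
    have h3 : A x ∈ (S.topologicalClosure : Set E) := by
      rw [Submodule.topologicalClosure_coe]; exact h2
    exact h3

/-- the orbit of a vector under the commutant -/
def orb (T : E →L[ℂ] E) (x : E) : Submodule ℂ E where
  carrier := {y | ∃ A : E →L[ℂ] E, A * T = T * A ∧ A x = y}
  add_mem' := by
    rintro _ _ ⟨A, hA, rfl⟩ ⟨B, hB, rfl⟩
    exact ⟨A + B, by rw [add_mul, mul_add, hA, hB], rfl⟩
  zero_mem' := ⟨0, by rw [zero_mul, mul_zero], rfl⟩
  smul_mem' := by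
    rintro c _ ⟨A, hA, rfl⟩
    exact ⟨c • A, by rw [smul_mul_assoc, mul_smul_comm, hA], rfl⟩

lemma mem_orb (T : E →L[ℂ] E) (x y : E) :
    y ∈ orb T x ↔ ∃ A : E →L[ℂ] E, A * T = T * A ∧ A x = y := Iff.rfl

section bil

variable (T : E →L[ℂ] E) (Φ : C(Circle, ℂ) →L[ℂ] (E →L[ℂ] ℂ)) (hΦ : Inter T Φ)
  (Ψ : C(Circle, ℂ) →L[ℂ] ((E →L[ℂ] ℂ) →L[ℂ] ℂ)) (hΨ : Inter (tr T) Ψ)
  (A : E →L[ℂ] E) (hA : A * T = T * A)

include hΦ hΨ hA

lemma bil_zc (g' g : C(Circle, ℂ)) :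
    Ψ g ((Φ (zc * g')).comp A) = Ψ (zc * g) ((Φ g').comp A) := by
  rw [hΨ]
  congr 1
  ext x
  have h1 : ((Φ (zc * g')).comp A) x = Φ g' (T (A x)) := hΦ g' (A x)
  have h2 : (tr T ((Φ g').comp A)) x = Φ g' (A (T x)) := rfl
  have h3 : A (T x) = T (A x) := by
    have := congrArg (fun B : E →L[ℂ] E => B x) hA
    exact this
  rw [h1, h2, h3]

lemma bil_nat (n : ℕ) : ∀ g' g : C(Circle, ℂ),
    Ψ g ((Φ (S1.e n * g')).comp A) = Ψ (S1.e n * g) ((Φ g').comp A) := by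
  induction n with
  | zero =>
    intro g' g
    have : S1.e ((0 : ℕ) : ℤ) = 1 := S1.e_zero
    rw [this, one_mul, one_mul]
  | succ n ih =>
    intro g' g
    have h1 : S1.e ((n + 1 : ℕ) : ℤ) = zc * S1.e n := by
      rw [S1.zc_mul_e]; push_cast; rfl
    rw [h1, mul_assoc, bil_zc T Φ hΦ Ψ hΨ A hA, ih, ← mul_assoc, mul_comm (S1.e n) zc]

lemma bil_int (k : ℤ) (g' g : C(Circle, ℂ)) :
    Ψ g ((Φ (S1.e k * g')).comp A) = Ψ (S1.e k * g) ((Φ g').comp A) := by
  obtain ⟨n, rfl | rfl⟩ := k.eq_nat_or_neg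
  · exact bil_nat T Φ hΦ Ψ hΨ A hA n g' g
  · have h0 : S1.e (n : ℤ) * S1.e (-(n : ℤ)) = 1 := by
      rw [← S1.e_add, add_neg_cancel, S1.e_zero]
    have h1 := bil_nat T Φ hΦ Ψ hΨ A hA n (S1.e (-(n : ℤ)) * g') (S1.e (-(n : ℤ)) * g)
    rw [← mul_assoc, ← mul_assoc, h0, one_mul, one_mul] at h1
    exact h1.symm

lemma bil_one (g' g : C(Circle, ℂ)) :
    Ψ g ((Φ g').comp A) = Ψ (g' * g) ((Φ 1).comp A) := by
  have hcl : IsClosed {g' : C(Circle, ℂ) |
      Ψ g ((Φ g').comp A) = Ψ (g' * g) ((Φ 1).comp A)} := by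
    apply isClosed_eq
    · have h1 : Continuous (fun φ : E →L[ℂ] ℂ => φ.comp A) :=
        ((ContinuousLinearMap.compL ℂ E E ℂ).flip A).continuous
      exact (Ψ g).continuous.comp (h1.comp Φ.continuous)
    · exact ((ContinuousLinearMap.apply ℂ ℂ ((Φ 1).comp A)).continuous.comp
        Ψ.continuous).comp (continuous_id.mul continuous_const)
  have hmem : ∀ a : ℤ →₀ ℂ, S1.ev a ∈ {g' : C(Circle, ℂ) |
      Ψ g ((Φ g').comp A) = Ψ (g' * g) ((Φ 1).comp A)} := by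
    intro a
    induction a using Finsupp.induction_linear with
    | zero =>
      simp only [Set.mem_ofPred_eq]
      rw [map_zero, map_zero, zero_mul, map_zero, ContinuousLinearMap.zero_comp, map_zero]
      rfl
    | add a b ha hb =>
      simp only [Set.mem_ofPred_eq] at ha hb ⊢
      rw [map_add, map_add, add_mul, map_add, ContinuousLinearMap.add_comp, map_add, ha, hb]
      rfl
    | single k c =>
      simp only [Set.mem_ofPred_eq]
      have h := bil_int T Φ hΦ Ψ hΨ A hA k 1 g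
      rw [mul_one] at h
      rw [S1.ev_single, map_smul, smul_mul_assoc, map_smul, ContinuousLinearMap.smul_comp,
        map_smul, h]
      rfl
  exact S1.ev_dense.induction_on (p := fun g' : C(Circle, ℂ) =>
      Ψ g ((Φ g').comp A) = Ψ (g' * g) ((Φ 1).comp A)) g' hcl hmem

end bil

end S2

/-- Module (S2g). -/
theorem modS2g : ModPU.{u} → ModS2g.{u} := by
  intro hPU E _ _ _ hrefl T hns Φ hΦ hΦ1 Ψ hΨ hΨ1
  rcases @hPU (E →L[ℂ] ℂ) ((E →L[ℂ] ℂ) →L[ℂ] ℂ) _ _ _ _ Φ Ψ hΦ1 hΨ1 with ⟨f, f', hff, hf', hf⟩ | ⟨lam, hlam⟩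
  · obtain ⟨x, hx⟩ := hrefl (Ψ f)
    have hx0 : x ≠ 0 := by
      intro h
      rw [h, map_zero] at hx
      exact hf hx.symm
    refine S2.hyper_of T (S2.orb T x) ⟨x, ⟨1, by rw [one_mul, mul_one], rfl⟩, hx0⟩ (Φ f') hf'
      ?_ ?_
    · rintro y ⟨A, hA, rfl⟩
      have h1 := S2.bil_one T Φ hΦ Ψ hΨ A hA f' f
      rw [mul_comm f' f, hff, map_zero] at h1
      have h2 : Ψ f ((Φ f').comp A) = Φ f' (A x) := by
        rw [← hx]; rfl
      rw [← h2, h1]
      rfl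
    · rintro B hB y ⟨A, hA, rfl⟩
      exact ⟨B * A, by rw [mul_assoc, hA, ← mul_assoc, hB, mul_assoc], rfl⟩
  · refine S2.hyper_of T (LinearMap.range ((T - lam • (1 : E →L[ℂ] E) : E →L[ℂ] E) : E →ₗ[ℂ] E))
      ?_ (Φ 1) hΦ1 ?_ ?_
    · by_contra hcon
      push Not at hcon
      apply hns lam
      ext x
      have h1 := hcon ((T - lam • (1 : E →L[ℂ] E)) x) ⟨x, rfl⟩
      have h2 : (T - lam • (1 : E →L[ℂ] E)) x = T x - (lam • (1 : E →L[ℂ] E)) x := rfl
      rw [h2] at h1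
      exact sub_eq_zero.1 h1
    · rintro _ ⟨x, rfl⟩
      have h1 : Φ (zc * 1) x = Φ 1 (T x) := hΦ 1 x
      have h2 : Φ (zc * 1) x = lam * Φ 1 x := by
        rw [hlam 1]; rfl
      have h3 : ((T - lam • (1 : E →L[ℂ] E) : E →L[ℂ] E) : E →ₗ[ℂ] E) x = T x - lam • x := rfl
      rw [h3, map_sub, map_smul, ← h1, h2, smul_eq_mul, sub_self]
    · rintro A hA _ ⟨x, rfl⟩
      refine ⟨A x, ?_⟩
      have h3 : ∀ y, ((T - lam • (1 : E →L[ℂ] E) : E →L[ℂ] E) : E →ₗ[ℂ] E) y = T y - lam • y :=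
        fun y => rfl
      have h4 : A (T x) = T (A x) := congrArg (fun B : E →L[ℂ] E => B x) hA
      rw [h3, h3, map_sub, map_smul, h4]

/-- Module (S2). -/
theorem modS2 : ModS1.{u} → ModPU.{u} → ModTR.{u} → ModS2.{u} := by
  intro hS1 hPU hTR E _ _ _ hrefl T C hT hns hst hco
  obtain ⟨htr1, _, htr3, _⟩ := @hTR E _ _ _
  obtain ⟨Φ, hΦ, hΦ1⟩ := hS1 T C hT hst
  obtain ⟨Ψ, hΨ, hΨ1⟩ := hS1 (tr T) C (htr1 T C hT) (fun h => hco ((htr3 T).2 h))
  exact modS2g hPU hrefl T hns Φ hΦ hΦ1 Ψ hΨ hΨ1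

end Pool.Agent.C10
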